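import Pool.Agent.W689.Ka.Fin

/-!
# Kalai's conjecture for free tight trees in large uniformity

A tight tree with `t` edges is *free* (`Pool.Agent.W689.Ka.Free`) if no vertex is opposite to two
interior facets. Tight paths with `t ≤ r + 1` edges are free and have `t - 1` interior facets.

Let `T` be a free tight `r`-tree with `t ≥ 3` edges and `γ` interior facets, and `H` an `r`-graph on
`n` vertices without a copy of `T`. Then `min ((r-γ+1)/(t-2)) (r/(t-1)) * |H| ≤ |∂H|`. If
`(γ-1)(t-1) ≤ r`, then `|H| ≤ (t-1)/r * |∂H| ≤ (t-1)/r * C(n,r-1)`. If `2 ≤ γ` and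
`(γ-1)(t-1) < r`, then `r |H| = (t-1) |∂H|` exactly for the unions of complete `r`-graphs on `r+t-2`
points which pairwise meet in at most `r-2` points, and `(t-1)/r * C(n,r-1)` is attained exactly
when there is a Steiner system `S(r-1, r+t-2, n)`.
-/

set_option autoImplicit false

open Pool.Agent.W689.Ka

namespace Pool.Agent.Results.MP_b4409b_co.FreeTightTrees

theorem result :
    (∀ r t : ℕ, 1 ≤ r → 3 ≤ t → ∀ e : ℕ → Finset ℕ, TightTree r t e → Free t e →
      -- the number of interior facets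
      (ridges r t e).card ≤ t - 1 ∧
      -- the bound
      (∀ (n : ℕ) (H : Finset (Finset (Fin n))), (∀ h ∈ H, h.card = r) → ¬ Copy t e H →
        min (((r : ℝ) - (ridges r t e).card + 1) / ((t : ℝ) - 2)) ((r : ℝ) / ((t : ℝ) - 1))
            * (H.card : ℝ) ≤ (H.shadow.card : ℝ) ∧
          (((ridges r t e).card - 1) * (t - 1) ≤ r →
            (H.card : ℝ) ≤ ((t : ℝ) - 1) / r * (H.shadow.card : ℝ) ∧
            (H.card : ℝ) ≤ ((t : ℝ) - 1) / r * ((n.choose (r - 1) : ℕ) : ℝ))) ∧
      -- the extremal families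
      (2 ≤ (ridges r t e).card → ((ridges r t e).card - 1) * (t - 1) < r → ∀ n : ℕ,
        (∀ H : Finset (Finset (Fin n)),
          ((∀ h ∈ H, h.card = r) ∧ ¬ Copy t e H ∧ r * H.card = (t - 1) * H.shadow.card) ↔
          ∃ Q : Finset (Finset (Fin n)), (∀ A ∈ Q, A.card = r + t - 2) ∧
            (∀ A ∈ Q, ∀ B ∈ Q, A ≠ B → (A ∩ B).card ≤ r - 2) ∧
            H = Q.biUnion (fun A => A.powersetCard r)) ∧
        ((∃ H : Finset (Finset (Fin n)), (∀ h ∈ H, h.card = r) ∧ ¬ Copy t e H ∧
            r * H.card = (t - 1) * n.choose (r - 1)) ↔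
          ∃ Q : Finset (Finset (Fin n)), (∀ A ∈ Q, A.card = r + t - 2) ∧
            ∀ S : Finset (Fin n), S.card = r - 1 → ∃! A, A ∈ Q ∧ S ⊆ A))) ∧
    -- tight paths with `t ≤ r + 1` edges are free tight trees with `t - 1` interior facets
    (∀ r t : ℕ, 3 ≤ t → t ≤ r + 1 →
      TightTree r t (fun i => Finset.Ico i (i + r)) ∧ Free t (fun i => Finset.Ico i (i + r)) ∧
        (ridges r t (fun i => Finset.Ico i (i + r))).card = t - 1 ∧
        ∀ (n : ℕ) (H : Finset (Finset (Fin n))),
          HasTightPath r t H ↔ Copy t (fun i => Finset.Ico i (i + r)) H) := by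
  refine ⟨?_, ?_⟩
  · intro r t hr ht e hT hF
    refine ⟨hT.ridges_card hr, ?_, ?_⟩
    · intro n H hu hno
      exact tree_bounds hr ht hT hF H hu hno
    · intro h2 htr n
      exact ⟨fun H => tree_extremal ht hT hF h2 htr H, tree_steiner ht hT hF h2 htr n⟩
  · intro r t ht htr
    exact ⟨tightTree_win (by omega) t, free_win (by omega) htr, ridges_win (by omega),
      fun n H => hasTightPath_iff (by omega) (by omega) H⟩

end Pool.Agent.Results.MP_b4409b_co.FreeTightTrees
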